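import Pool.Agent.L0h45.LR.Stm

/-!
# Project LR (helper45), module GEO: geometric sums
-/

set_option autoImplicit false

open Finset

namespace Pool.Agent.L0h6.LR

open Pool.Agent.L0h45.LR

lemma ex_add (s t : ℝ) : ex (s + t) = ex s * ex t := by
  unfold ex
  rw [← Complex.exp_add]
  congr 1
  push_cast
  ring

lemma norm_ex (t : ℝ) : ‖ex t‖ = 1 := by
  unfold ex
  have : (2 * Real.pi * t * Complex.I : ℂ) = ((2 * Real.pi * t : ℝ) : ℂ) * Complex.I := by
    push_cast; ring
  rw [this]
  exact Complex.norm_exp_ofReal_mul_I _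

lemma ex_int (k : ℤ) : ex (k : ℝ) = 1 := by
  unfold ex
  rw [Complex.exp_eq_one_iff]
  exact ⟨k, by push_cast; ring⟩

/-- lower bound for the denominator -/
lemma four_dn_le (t : ℝ) : 4 * dn t ≤ ‖ex t - 1‖ := by
  obtain ⟨r, hr⟩ : ∃ r : ℝ, r = t - round t := ⟨_, rfl⟩
  have h1 : |r| ≤ 1 / 2 := by rw [hr]; exact abs_sub_round t
  have h2 : ex t = ex r := by
    have : t = r + ((round t : ℤ) : ℝ) := by rw [hr]; ring
    rw [this, ex_add, ex_int, mul_one]
  have h3 : dn t = |r| := by rw [hr]; rfl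
  rw [h2, h3]
  have h4 : ‖ex r - 1‖ = 2 * |Real.sin (Real.pi * r)| := by
    unfold ex
    have e : (2 * Real.pi * r * Complex.I : ℂ) = Complex.I * ((2 * Real.pi * r : ℝ) : ℂ) := by
      push_cast; ring
    rw [e, Complex.norm_exp_I_mul_ofReal_sub_one, norm_mul, Real.norm_eq_abs, Real.norm_eq_abs,
      abs_of_pos (by norm_num : (0 : ℝ) < 2)]
    congr 3
    ring
  rw [h4]
  have h5 : |Real.sin (Real.pi * r)| = Real.sin (Real.pi * |r|) := by
    rcases le_total 0 r with h | h
    · rw [abs_of_nonneg h, abs_of_nonneg]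
      apply Real.sin_nonneg_of_nonneg_of_le_pi (by positivity)
      have := Real.pi_pos
      rw [abs_of_nonneg h] at h1
      nlinarith
    · rw [abs_of_nonpos h, mul_neg, Real.sin_neg]
      apply abs_of_nonpos
      have e : Real.sin (Real.pi * r) = - Real.sin (Real.pi * (-r)) := by
        rw [mul_neg, Real.sin_neg, neg_neg]
      rw [e]
      have := Real.pi_pos
      rw [abs_of_nonpos h] at h1
      have : 0 ≤ Real.sin (Real.pi * (-r)) := by
        apply Real.sin_nonneg_of_nonneg_of_le_pi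
        · exact mul_nonneg Real.pi_pos.le (by linarith)
        · nlinarith
      linarith
  rw [h5]
  have h6 : 2 * |r| ≤ Real.sin (Real.pi * |r|) := by
    have h7 := Real.mul_le_sin (x := Real.pi * |r|) (by positivity) (by
      have := Real.pi_pos
      nlinarith)
    have h8 : 2 / Real.pi * (Real.pi * |r|) = 2 * |r| := by
      have := Real.pi_pos.ne'
      field_simp
    linarith
  linarith

lemma sum_tel (t : ℝ) (u : ℤ) (n : ℕ) :
    (∑ j ∈ Ioc u (u + n), ex (t * j)) * (ex t - 1) = ex (t * ((u + n + 1 : ℤ) : ℝ)) - ex (t * ((u + 1 : ℤ) : ℝ)) := by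
  induction n with
  | zero => simp
  | succ n ih =>
    have h1 : Ioc u (u + ((n + 1 : ℕ) : ℤ)) = insert (u + n + 1) (Ioc u (u + n)) := by
      ext x
      simp only [mem_Ioc, mem_insert]
      push_cast
      omega
    have h2 : (u + n + 1) ∉ Ioc u (u + (n : ℤ)) := by
      simp only [mem_Ioc]
      omega
    rw [h1, sum_insert h2, add_mul, ih]
    have h3 : ex (t * ((u + ((n + 1 : ℕ) : ℤ) + 1 : ℤ) : ℝ)) = ex (t * ((u + n + 1 : ℤ) : ℝ)) * ex t := by
      rw [← ex_add]
      congr 1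
      push_cast
      ring
    rw [h3]
    ring

/-- GEO -/
theorem t_GEO : S_GEO := by
  intro t u n ht
  have h1 := four_dn_le t
  have h2 := congrArg norm (sum_tel t u n)
  rw [norm_mul] at h2
  have h3 : ‖ex (t * ((u + n + 1 : ℤ) : ℝ)) - ex (t * ((u + 1 : ℤ) : ℝ))‖ ≤ 2 := by
    refine (norm_sub_le _ _).trans ?_
    rw [norm_ex, norm_ex]
    norm_num
  rw [le_div_iff₀ (by positivity)]
  have h4 := norm_nonneg (∑ j ∈ Ioc u (u + n), ex (t * j))
  nlinarith

end Pool.Agent.L0h6.LR
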