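import Pool.Agent.L0h45.LR.Stm
import Pool.Agent.N50.PQ.Orb

/-!
# Project LR (helper45), module ORBL: orbits of the unipotent group on a line
-/

set_option autoImplicit false

open scoped Classical

namespace Pool.Agent.L0h6.LR

open Pool.Agent.N874.PP (Tup chA chB gq tau Two)
open Pool.Agent.N922.PQ
open Pool.Agent.N50.PQ (X_tau chA_tau chB_tau)
open Pool.Agent.L0h45.LR

/-- ORBL -/
theorem t_ORBL : S_ORBL := by
  intro κ a S s X T hT hfin0
  have hfin : Finite {B : Tup ℤ | Xset (29 * κ) X T S s B ∧ chA B = a} := hfin0.to_subtype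
  rw [← Nat.card_coe_set_eq {B : Tup ℤ | Xset (29 * κ) X T S s B ∧ chA B = a}]
  have hch : ∀ p : {b : ℤ | ∃ B : Tup ℤ, Xset κ X T S s B ∧ chA B = a ∧ chB B = b},
      ∃ B : Tup ℤ, Xset κ X T S s B ∧ chA B = a ∧ chB B = p.1 := fun p => p.2
  choose B h1 h3 h4 using hch
  have e1 : {b : ℤ | ∃ B : Tup ℤ, Xset κ X T S s B ∧ chA B = a ∧ chB B = b}.ncard * T =
      Nat.card ({b : ℤ | ∃ B : Tup ℤ, Xset κ X T S s B ∧ chA B = a ∧ chB B = b} × Fin T) := by
    rw [Nat.card_prod, Nat.card_coe_set_eq, Nat.card_fin]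
  rw [e1]
  refine Nat.card_le_card_of_injective (fun z => (⟨tau ((z.2.1 : ℕ) : ℤ) (B z.1), X_tau (h1 z.1)
    (Int.natCast_nonneg _) (by exact_mod_cast z.2.2.le), by rw [chA_tau]; exact h3 z.1⟩ :
      {B : Tup ℤ | Xset (29 * κ) X T S s B ∧ chA B = a})) ?_
  rintro ⟨p, u⟩ ⟨p', u'⟩ h
  have h5 : tau ((u.1 : ℕ) : ℤ) (B p) = tau ((u'.1 : ℕ) : ℤ) (B p') := congrArg Subtype.val h
  have h6' : p = p' := by
    apply Subtype.ext
    rw [← h4 p, ← h4 p', ← chB_tau ((u.1 : ℕ) : ℤ) (B p), ← chB_tau ((u'.1 : ℕ) : ℤ) (B p'), h5]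
  subst h6'
  have h7 : (B p).y - 2 * ((u.1 : ℕ) : ℤ) * (B p).x = (B p).y - 2 * ((u'.1 : ℕ) : ℤ) * (B p).x :=
    congrArg Tup.y h5
  have h8 : (2 * (B p).x) * (((u.1 : ℕ) : ℤ) - ((u'.1 : ℕ) : ℤ)) = 0 := by linear_combination -h7
  have h9 : u = u' := by
    apply Fin.ext
    rcases mul_eq_zero.1 h8 with h10 | h10
    · rcases mul_eq_zero.1 h10 with h11 | h11
      · exact absurd h11 (by norm_num)
      · exact absurd h11 (h1 p).nz
    · have := sub_eq_zero.1 h10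
      exact_mod_cast this
  rw [h9]

end Pool.Agent.L0h6.LR
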