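import Pool.Agent.L0h45.LR.Stm

/-!
# Project LR (helper45), module W2: a crude sum over greatest common divisors
-/

set_option autoImplicit false

open Finset

namespace Pool.Agent.L0h6.LR

open Pool.Agent.L0h45.LR

lemma sum_inv_sqrt (N : ℕ) : ∑ e ∈ Icc 1 N, 1 / √(e : ℝ) ≤ 2 * √(N : ℝ) := by
  induction N with
  | zero => simp
  | succ N ih =>
    rw [Finset.sum_Icc_succ_top (by omega)]
    have h0 : 0 ≤ √(N : ℝ) := Real.sqrt_nonneg _
    have h1 : 0 < √((N + 1 : ℕ) : ℝ) := Real.sqrt_pos.2 (by positivity)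
    have h2 : √(N : ℝ) ^ 2 = N := Real.sq_sqrt (by positivity)
    have h3 : √((N + 1 : ℕ) : ℝ) ^ 2 = N + 1 := by
      rw [Real.sq_sqrt (by positivity)]; push_cast; ring
    have h4 : 1 / √((N + 1 : ℕ) : ℝ) ≤ 2 * √((N + 1 : ℕ) : ℝ) - 2 * √(N : ℝ) := by
      rw [div_le_iff₀ h1]
      nlinarith [sq_nonneg (√((N + 1 : ℕ) : ℝ) - √(N : ℝ))]
    linarith

lemma sum_mult (P d : ℕ) (hd : 1 ≤ d) :
    ∑ g ∈ (Icc 1 P).filter (fun g => d ∣ g), 1 / √(g : ℝ) ≤ 2 * √(P : ℝ) * (1 / (d : ℝ)) := by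
  have h1 : (Icc 1 P).filter (fun g => d ∣ g) = (Icc 1 (P / d)).image (fun e => d * e) := by
    ext g
    simp only [mem_filter, mem_Icc, mem_image]
    constructor
    · rintro ⟨⟨h1, h2⟩, e, rfl⟩
      refine ⟨e, ⟨Nat.pos_of_ne_zero ?_, ?_⟩, rfl⟩
      · rintro rfl
        simp at h1
      · rw [Nat.le_div_iff_mul_le hd, mul_comm]
        exact h2
    · rintro ⟨e, ⟨h1, h2⟩, rfl⟩
      rw [Nat.le_div_iff_mul_le hd, mul_comm] at h2
      exact ⟨⟨Nat.mul_pos hd h1, h2⟩, dvd_mul_right _ _⟩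
  rw [h1, sum_image (fun a _ b _ h => Nat.eq_of_mul_eq_mul_left hd h)]
  have hd' : (0 : ℝ) < d := by exact_mod_cast hd
  have hsd : 0 < √(d : ℝ) := Real.sqrt_pos.2 hd'
  have hsq : √(d : ℝ) * √(d : ℝ) = d := Real.mul_self_sqrt hd'.le
  have h2 : ∑ e ∈ Icc 1 (P / d), 1 / √((d * e : ℕ) : ℝ) = 1 / √(d : ℝ) * ∑ e ∈ Icc 1 (P / d), 1 / √(e : ℝ) := by
    rw [mul_sum]
    apply sum_congr rfl
    intro e _
    rw [Nat.cast_mul, Real.sqrt_mul hd'.le, one_div_mul_one_div]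
  rw [h2]
  have h3 := sum_inv_sqrt (P / d)
  have h4 : √((P / d : ℕ) : ℝ) ≤ √(P : ℝ) / √(d : ℝ) := by
    rw [← Real.sqrt_div (by positivity)]
    apply Real.sqrt_le_sqrt
    exact Nat.cast_div_le
  calc 1 / √(d : ℝ) * ∑ e ∈ Icc 1 (P / d), 1 / √(e : ℝ) ≤ 1 / √(d : ℝ) * (2 * (√(P : ℝ) / √(d : ℝ))) := by
        apply mul_le_mul_of_nonneg_left _ (by positivity)
        linarith
    _ = 2 * √(P : ℝ) * (1 / (√(d : ℝ) * √(d : ℝ))) := by
        field_simp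
    _ = _ := by rw [hsq]

lemma sum_tn (P : ℕ) (hP : 1 ≤ P) :
    ∑ g ∈ Icc 1 P, (tn g : ℝ) / √(g : ℝ) ≤ 2 * √(P : ℝ) * (1 + Real.log P) := by
  have h1 : ∀ g ∈ Icc 1 P, (tn g : ℝ) / √(g : ℝ) =
      ∑ d ∈ (Icc 1 P), if d ∣ g then 1 / √(g : ℝ) else 0 := by
    intro g hg
    rw [mem_Icc] at hg
    rw [← sum_filter, sum_const, nsmul_eq_mul]
    have h2 : (Icc 1 P).filter (fun d => d ∣ g) = g.divisors := by
      ext d
      simp only [mem_filter, mem_Icc, Nat.mem_divisors]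
      constructor
      · rintro ⟨_, h⟩
        exact ⟨h, by omega⟩
      · rintro ⟨h, _⟩
        exact ⟨⟨Nat.pos_of_dvd_of_pos h (by omega), (Nat.le_of_dvd (by omega) h).trans hg.2⟩, h⟩
    rw [h2]
    unfold tn
    ring
  rw [sum_congr rfl h1, sum_comm]
  have h3 : ∀ d ∈ Icc 1 P, ∑ g ∈ Icc 1 P, (if d ∣ g then 1 / √(g : ℝ) else 0) ≤
      2 * √(P : ℝ) * (1 / (d : ℝ)) := by
    intro d hd
    rw [← sum_filter]
    exact sum_mult P d (mem_Icc.1 hd).1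
  refine (sum_le_sum h3).trans ?_
  rw [← mul_sum]
  apply mul_le_mul_of_nonneg_left _ (by positivity)
  have h4 := harmonic_le_one_add_log P
  rw [harmonic_eq_sum_Icc] at h4
  push_cast at h4
  simpa [one_div] using h4

/-- W2 -/
theorem t_W2 : S_W2 := by
  refine ⟨4, by norm_num, fun P R hP hR => ?_⟩
  -- bound by a sum over all common divisors
  have hterm : ∀ x ∈ Icc 1 P, ∀ y ∈ Icc 1 R,
      (tn (Nat.gcd x (2 * y)) : ℝ) * (Nat.gcd x (2 * y) * √(Nat.gcd x (2 * y) : ℝ)) ≤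
      ∑ g ∈ Icc 1 P, if g ∣ x ∧ g ∣ 2 * y then (tn g : ℝ) * (g * √(g : ℝ)) else 0 := by
    intro x hx y hy
    rw [mem_Icc] at hx hy
    have hg : Nat.gcd x (2 * y) ∈ Icc 1 P := by
      rw [mem_Icc]
      exact ⟨Nat.gcd_pos_of_pos_left _ (by omega), (Nat.gcd_le_left _ (by omega)).trans hx.2⟩
    have h1 := single_le_sum (f := fun g : ℕ => if g ∣ x ∧ g ∣ 2 * y then (tn g : ℝ) * (g * √(g : ℝ)) else 0)
      (fun g _ => by
        show 0 ≤ (if g ∣ x ∧ g ∣ 2 * y then (tn g : ℝ) * (g * √(g : ℝ)) else 0)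
        split_ifs
        · positivity
        · exact le_rfl) hg
    simp only [Nat.gcd_dvd_left, Nat.gcd_dvd_right, and_self, if_true] at h1
    exact h1
  have h1 : ∑ x ∈ Icc 1 P, ∑ y ∈ Icc 1 R,
      (tn (Nat.gcd x (2 * y)) : ℝ) * (Nat.gcd x (2 * y) * √(Nat.gcd x (2 * y) : ℝ)) ≤
      ∑ x ∈ Icc 1 P, ∑ y ∈ Icc 1 R, ∑ g ∈ Icc 1 P,
        if g ∣ x ∧ g ∣ 2 * y then (tn g : ℝ) * (g * √(g : ℝ)) else 0 :=
    sum_le_sum (fun x hx => sum_le_sum (fun y hy => hterm x hx y hy))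
  refine h1.trans ?_
  have h2 : ∑ x ∈ Icc 1 P, ∑ y ∈ Icc 1 R, ∑ g ∈ Icc 1 P,
        (if g ∣ x ∧ g ∣ 2 * y then (tn g : ℝ) * (g * √(g : ℝ)) else 0) =
      ∑ g ∈ Icc 1 P, ((tn g : ℝ) * (g * √(g : ℝ))) *
        ((((Icc 1 P).filter (fun x => g ∣ x)).card : ℝ) * (((Icc 1 R).filter (fun y => g ∣ 2 * y)).card : ℝ)) := by
    have e1 : ∀ x ∈ Icc 1 P, ∑ y ∈ Icc 1 R, ∑ g ∈ Icc 1 P,
        (if g ∣ x ∧ g ∣ 2 * y then (tn g : ℝ) * (g * √(g : ℝ)) else 0) =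
        ∑ g ∈ Icc 1 P, ∑ y ∈ Icc 1 R,
        (if g ∣ x ∧ g ∣ 2 * y then (tn g : ℝ) * (g * √(g : ℝ)) else 0) := fun x _ => sum_comm
    rw [sum_congr rfl e1, sum_comm]
    apply sum_congr rfl
    intro g _
    have e2 : ∀ x ∈ Icc 1 P, ∑ y ∈ Icc 1 R,
        (if g ∣ x ∧ g ∣ 2 * y then (tn g : ℝ) * (g * √(g : ℝ)) else 0) =
        if g ∣ x then ((((Icc 1 R).filter (fun y => g ∣ 2 * y)).card : ℝ) * ((tn g : ℝ) * (g * √(g : ℝ)))) else 0 := by
      intro x _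
      by_cases hx : g ∣ x
      · simp only [hx, true_and, if_true]
        rw [← sum_filter, sum_const, nsmul_eq_mul]
      · simp only [hx, false_and, if_false, sum_const_zero]
    rw [sum_congr rfl e2, ← sum_filter, sum_const, nsmul_eq_mul]
    ring
  rw [h2]
  have h3 : ∀ g ∈ Icc 1 P, ((tn g : ℝ) * (g * √(g : ℝ))) *
        ((((Icc 1 P).filter (fun x => g ∣ x)).card : ℝ) * (((Icc 1 R).filter (fun y => g ∣ 2 * y)).card : ℝ)) ≤
      (2 * (P * R)) * ((tn g : ℝ) / √(g : ℝ)) := by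
    intro g hg
    rw [mem_Icc] at hg
    have hg' : (0 : ℝ) < g := by exact_mod_cast hg.1
    have hsg : 0 < √(g : ℝ) := Real.sqrt_pos.2 hg'
    have hsq : √(g : ℝ) * √(g : ℝ) = g := Real.mul_self_sqrt hg'.le
    have c1 : (((Icc 1 P).filter (fun x => g ∣ x)).card : ℝ) ≤ P / g := by
      have : ((Icc 1 P).filter (fun x => g ∣ x)).card = P / g := by
        have := Nat.Ioc_filter_dvd_card_eq_div P g
        exact this
      rw [this]
      exact Nat.cast_div_le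
    have c2 : (((Icc 1 R).filter (fun y => g ∣ 2 * y)).card : ℝ) ≤ (2 * R) / g := by
      have h4 : ((Icc 1 R).filter (fun y => g ∣ 2 * y)).card ≤ ((Ioc 0 (2 * R)).filter (fun x => g ∣ x)).card := by
        apply card_le_card_of_injOn (fun y => 2 * y)
        · intro y hy
          have hy := mem_filter.1 (mem_coe.1 hy)
          have hy1 := mem_Icc.1 hy.1
          apply mem_coe.2
          show 2 * y ∈ _
          rw [mem_filter, mem_Ioc]
          exact ⟨⟨by omega, by omega⟩, hy.2⟩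
        · intro a _ b _ h
          have : 2 * a = 2 * b := h
          omega
      rw [Nat.Ioc_filter_dvd_card_eq_div] at h4
      calc (((Icc 1 R).filter (fun y => g ∣ 2 * y)).card : ℝ) ≤ ((2 * R / g : ℕ) : ℝ) := by exact_mod_cast h4
        _ ≤ ((2 * R : ℕ) : ℝ) / g := Nat.cast_div_le
        _ = _ := by push_cast; ring
    calc ((tn g : ℝ) * (g * √(g : ℝ))) *
        ((((Icc 1 P).filter (fun x => g ∣ x)).card : ℝ) * (((Icc 1 R).filter (fun y => g ∣ 2 * y)).card : ℝ))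
        ≤ ((tn g : ℝ) * (g * √(g : ℝ))) * ((P / g) * ((2 * R) / g)) := by
          apply mul_le_mul_of_nonneg_left _ (by positivity)
          exact mul_le_mul c1 c2 (by positivity) (by positivity)
      _ = (2 * (P * R)) * ((tn g : ℝ) / √(g : ℝ)) := by
          rw [eq_comm]
          field_simp
          rw [Real.sq_sqrt hg'.le]
  refine (sum_le_sum h3).trans ?_
  rw [← mul_sum]
  have h5 := sum_tn P hP
  calc (2 * (P * R)) * ∑ g ∈ Icc 1 P, (tn g : ℝ) / √(g : ℝ) ≤ (2 * ((P : ℝ) * R)) * (2 * √(P : ℝ) * (1 + Real.log P)) :=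
        mul_le_mul_of_nonneg_left h5 (by positivity)
    _ = 4 * (P * R) * √(P : ℝ) * (1 + Real.log P) := by ring

end Pool.Agent.L0h6.LR
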